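import Pool.Agent.W978.QO.Stm

set_option autoImplicit false

namespace Pool.Agent.W577.QO.LS

open Pool.Agent.W978.QN Pool.Agent.W978.QO

theorem nm_nonneg (v : Fin 3 → ℤ) : 0 ≤ nm v := by
  unfold Pool.Agent.W978.QN.nm
  exact (abs_nonneg _).trans (le_max_right _ _)

theorem main : S_LS := by
  classical
  rintro a ⟨c, K, hc, h⟩
  refine ⟨c / 1600, 2 ^ (10 * (2 * K + 1)), by positivity, ?_⟩
  intro B hB
  have hBpos : 0 < B := lt_of_lt_of_le (by positivity) hB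
  set n := Nat.log 2 B with hn
  have hn1 : 10 * (2 * K + 1) ≤ n := Nat.le_log_of_pow_le (by norm_num) hB
  have hBn : 2 ^ n ≤ B := Nat.pow_log_le_self 2 hBpos.ne'
  have hBn' : B < 2 ^ (n + 1) := Nat.lt_pow_succ_log_self (by norm_num) B
  set T := n / 10 with hT
  have hT1 : 2 * K + 1 ≤ T := by omega
  have hT2 : 10 * T ≤ n := by omega
  have hT3 : n < 10 * (T + 1) := by omega
  set I := Finset.Icc K T with hI
  have hex : ∀ kl : ℕ × ℕ, ∃ S : Finset (Fin 3 → Fin 3 → ℤ), kl ∈ I ×ˢ I →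
      (∀ P ∈ S, ((∀ i, Rep (P i)) ∧ tf a P = 0 ∧ InU a P ∧ ∏ i, nm (P i) ≤ B) ∧
        (nm (P 0) ≤ ((2 ^ kl.1 : ℕ) : ℤ) ∧ ((2 ^ kl.1 : ℕ) : ℤ) < 2 * nm (P 0) ∧
          nm (P 1) ≤ ((2 ^ kl.2 : ℕ) : ℤ) ∧ ((2 ^ kl.2 : ℕ) : ℤ) < 2 * nm (P 1))) ∧
      c / 4 * (B : ℝ) ^ 2 ≤ (S.card : ℝ) := by
    rintro ⟨k, l⟩
    by_cases hkl : (k, l) ∈ I ×ˢ I
    · rw [Finset.mem_product, hI, Finset.mem_Icc, Finset.mem_Icc] at hkl
      obtain ⟨⟨hk1, hk2⟩, hl1, hl2⟩ := hkl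
      simp only at hk1 hk2 hl1 hl2
      have hKk : K ≤ 2 ^ k := hk1.trans (Nat.lt_two_pow_self).le
      have hKl : K ≤ 2 ^ l := hl1.trans (Nat.lt_two_pow_self).le
      have hK2 : K ≤ 2 ^ K := (Nat.lt_two_pow_self).le
      have hXX : 2 ^ k * 2 ^ l ≤ 2 ^ (2 * T) := by
        rw [← pow_add]; exact Nat.pow_le_pow_right (by norm_num) (by omega)
      have hXpos : 0 < 2 ^ k * 2 ^ l := by positivity
      have h3 : K * (2 ^ k * 2 ^ l) ^ 3 ≤ B / (2 ^ k * 2 ^ l) := by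
        rw [Nat.le_div_iff_mul_le hXpos]
        calc K * (2 ^ k * 2 ^ l) ^ 3 * (2 ^ k * 2 ^ l) = K * (2 ^ k * 2 ^ l) ^ 4 := by ring
          _ ≤ 2 ^ K * (2 ^ (2 * T)) ^ 4 := Nat.mul_le_mul hK2 (Nat.pow_le_pow_left hXX 4)
          _ = 2 ^ (K + 8 * T) := by rw [← pow_mul, ← pow_add]; congr 1; ring
          _ ≤ 2 ^ n := Nat.pow_le_pow_right (by norm_num) (by omega)
          _ ≤ B := hBn
      obtain ⟨S, hS1, hS2⟩ := h (2 ^ k) (2 ^ l) (B / (2 ^ k * 2 ^ l)) hKk hKl h3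
      refine ⟨S, fun _ => ⟨?_, ?_⟩⟩
      · intro P hP
        obtain ⟨g1, g2, g3, g4, g5, g6, g7, g8⟩ := hS1 P hP
        refine ⟨⟨g1, g2, g3, ?_⟩, g4, g5, g6, g7⟩
        rw [Fin.prod_univ_three]
        have e1 : nm (P 0) * nm (P 1) * nm (P 2) ≤
            ((2 ^ k : ℕ) : ℤ) * ((2 ^ l : ℕ) : ℤ) * ((B / (2 ^ k * 2 ^ l) : ℕ) : ℤ) :=
          mul_le_mul (mul_le_mul g4 g6 (nm_nonneg _) (by positivity)) g8 (nm_nonneg _)
            (by positivity)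
        have e2 : 2 ^ k * 2 ^ l * (B / (2 ^ k * 2 ^ l)) ≤ B := Nat.mul_div_le _ _
        have e3 : ((2 ^ k : ℕ) : ℤ) * ((2 ^ l : ℕ) : ℤ) * ((B / (2 ^ k * 2 ^ l) : ℕ) : ℤ) ≤ B := by
          exact_mod_cast e2
        exact e1.trans e3
      · refine le_trans ?_ hS2
        have e1 : B < 2 ^ k * 2 ^ l * (B / (2 ^ k * 2 ^ l)) + 2 ^ k * 2 ^ l := by
          have := Nat.div_add_mod B (2 ^ k * 2 ^ l)
          have h4 := Nat.mod_lt B hXpos
          omega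
        have e2 : 2 * (2 ^ k * 2 ^ l) ≤ B := by
          calc 2 * (2 ^ k * 2 ^ l) ≤ 2 * 2 ^ (2 * T) := by omega
            _ = 2 ^ (2 * T + 1) := by rw [pow_succ]; ring
            _ ≤ 2 ^ n := Nat.pow_le_pow_right (by norm_num) (by omega)
            _ ≤ B := hBn
        have e3 : B ≤ 2 * (2 ^ k * 2 ^ l * (B / (2 ^ k * 2 ^ l))) := by omega
        have e4 : (B : ℝ) ≤ 2 * (((2 ^ k : ℕ) : ℝ) * ((2 ^ l : ℕ) : ℝ) *
            ((B / (2 ^ k * 2 ^ l) : ℕ) : ℝ)) := by exact_mod_cast e3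
        have hB0 : (0:ℝ) ≤ B := Nat.cast_nonneg _
        have e5 : (B:ℝ) ^ 2 ≤ (2 * (((2 ^ k : ℕ) : ℝ) * ((2 ^ l : ℕ) : ℝ) *
            ((B / (2 ^ k * 2 ^ l) : ℕ) : ℝ))) ^ 2 := pow_le_pow_left₀ hB0 e4 2
        rw [mul_pow] at e5
        have e6 := mul_le_mul_of_nonneg_left e5 (show 0 ≤ c / 4 by positivity)
        calc c / 4 * (B:ℝ) ^ 2 ≤ _ := e6
          _ = _ := by ring
    · exact ⟨∅, fun h0 => absurd h0 hkl⟩
  choose S hS using hex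
  refine ⟨(I ×ˢ I).biUnion S, ?_, ?_⟩
  · intro P hP
    rw [Finset.mem_biUnion] at hP
    obtain ⟨kl, hkl, hP⟩ := hP
    exact (((hS kl hkl).1 P hP).1)
  · have hdisj : ∀ x ∈ I ×ˢ I, ∀ y ∈ I ×ˢ I, x ≠ y → Disjoint (S x) (S y) := by
      intro x hx y hy hxy
      rw [Finset.disjoint_left]
      intro P hPx hPy
      apply hxy
      obtain ⟨a1, a2, a3, a4⟩ := ((hS x hx).1 P hPx).2
      obtain ⟨b1, b2, b3, b4⟩ := ((hS y hy).1 P hPy).2
      have key : ∀ (u v : ℕ) (t : ℤ), t ≤ ((2 ^ u : ℕ) : ℤ) → ((2 ^ v : ℕ) : ℤ) < 2 * t →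
          v ≤ u := by
        intro u v t h1 h2
        by_contra hcon
        have h5 : 2 ^ (u + 1) ≤ 2 ^ v := Nat.pow_le_pow_right (by norm_num) (by omega)
        have h6 : ((2 ^ (u + 1) : ℕ) : ℤ) ≤ ((2 ^ v : ℕ) : ℤ) := by exact_mod_cast h5
        have h7 : ((2 ^ (u + 1) : ℕ) : ℤ) = 2 * ((2 ^ u : ℕ) : ℤ) := by
          push_cast; ring
        linarith
      have f1 := key _ _ _ a1 b2
      have f2 := key _ _ _ b1 a2
      have f3 := key _ _ _ a3 b4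
      have f4 := key _ _ _ b3 a4
      exact Prod.ext (le_antisymm f2 f1) (le_antisymm f4 f3)
    rw [Finset.card_biUnion hdisj]
    push_cast
    have h1 : ∑ _kl ∈ I ×ˢ I, (c / 4 * (B : ℝ) ^ 2) ≤ ∑ kl ∈ I ×ˢ I, ((S kl).card : ℝ) :=
      Finset.sum_le_sum fun kl hkl => (hS kl hkl).2
    refine le_trans ?_ h1
    rw [Finset.sum_const, nsmul_eq_mul, Finset.card_product]
    have hcard : (T + 1) ≤ 2 * I.card := by
      rw [hI, Nat.card_Icc]; omega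
    have hlog : Real.log B ≤ 10 * (T + 1) := by
      have e1 : (B:ℝ) ≤ 2 ^ (n + 1) := by exact_mod_cast hBn'.le
      have hB0 : (0:ℝ) < B := by exact_mod_cast hBpos
      have e2 := Real.log_le_log hB0 e1
      rw [Real.log_pow] at e2
      have e3 := Real.log_two_lt_d9
      have e4 : ((n:ℝ) + 1) ≤ 10 * (T + 1) := by
        have : n + 1 ≤ 10 * (T + 1) := by omega
        exact_mod_cast this
      have e5 : (0:ℝ) ≤ (n:ℝ) + 1 := by positivity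
      push_cast at e2
      nlinarith
    have hlog2 : Real.log B ≤ 20 * (I.card : ℝ) := by
      have : ((T:ℝ) + 1) ≤ 2 * (I.card : ℝ) := by exact_mod_cast hcard
      linarith
    have hlog0 : 0 ≤ Real.log B := Real.log_nonneg (by exact_mod_cast hBpos)
    have hsq : Real.log B ^ 2 ≤ (20 * (I.card : ℝ)) ^ 2 := pow_le_pow_left₀ hlog0 hlog2 2
    push_cast
    have e6 := mul_le_mul_of_nonneg_left hsq (show 0 ≤ c / 1600 * (B:ℝ) ^ 2 by positivity)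
    calc c / 1600 * (B:ℝ) ^ 2 * Real.log B ^ 2 ≤ _ := e6
      _ = _ := by ring

end Pool.Agent.W577.QO.LS
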